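import Pool.Agent.MP_ee8c61_ag.N3CP.Spec
import Pool.Agent.MP_ee8c61_ag.N3E.RAdj
import Pool.Agent.MP_ee8c61_ag.N3E.RJd
import Pool.Agent.MP_ee8c61_ag.M3RESID.Res

/-!
Adjunction for the surface attached to a divisor.
-/

set_option autoImplicit false

namespace Pool.Agent.MP_ee8c61_ag.N3.M3CP

open Pool.Agent.MP_ee8c61_ag.M3

set_option linter.unusedSectionVars false

variable [Base]

open M3 hiding Dom
open M3E M3RESID
open M3S hiding Ov
open Pool.Agent.MP_96693b_ag.RS (Loc LocOf Model Chart IsCrd)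

namespace RAdn

variable {f : Po 3} {M : Mod 3} {o : M.J} {a b : M.ι} {l0 i0 : Fin 3} {p0 : KK 3}

theorem rs_mul {g h : KK 3} (hg : g ∈ (M.v o).F 0) (hh : h ∈ (M.v o).F 0) :
    rs M o (g * h) = rs M o g * rs M o h := (M.v o).pl.mul g hg h hh

theorem rs_neg {g : KK 3} (hg : g ∈ (M.v o).F 0) : rs M o (-g) = -rs M o g :=
  Pl.π_neg (P := (M.v o).pl) hg

theorem mon_e (B : Bas f M) (hl : M.S.lab a o = some l0) : M.mon a (M.e o) = M.S.z a l0 := by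
  have := B.mon_e a o 1
  rw [one_smul, zpow_one] at this
  exact this.trans (M.S.η_some a o l0 hl)

theorem v_z (B : Bas f M) (ha : M.In a (M.v o).O) (hl : M.S.lab a o = some l0) :
    M.S.z a l0 ≠ 0 ∧ (M.v o).v (M.S.z a l0) = 1 :=
  ⟨mon_e B hl ▸ M.mon_ne a _, by rw [← mon_e B hl, B.v_mon a o _ ha, M.e_apply, if_pos rfl]⟩

theorem det_chain (d : Der M) (a b : M.ι) : (Matrix.of fun l i => M.S.D b i (M.S.r l)).det =
    (Matrix.of fun i l => M.S.D b i (M.S.z a l)).det *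
      (Matrix.of fun l i => M.S.D a i (M.S.r l)).det := by
  have key : (Matrix.of fun l i => M.S.D b i (M.S.r l)) =
      (Matrix.of fun l i => M.S.D a i (M.S.r l)) *
        (Matrix.of fun i l => M.S.D b i (M.S.z a l)).transpose := by
    ext l i
    rw [Matrix.mul_apply, Matrix.of_apply, d.chain (M.S.D b i) a]
    exact Finset.sum_congr rfl fun m _ => mul_comm _ _
  rw [key, Matrix.det_mul, Matrix.det_transpose, mul_comm]

theorem keep (B : Bas f M) (d : Der M) (hb : M.In b (M.v o).O) (i : Fin 3) :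
    ∀ g ∈ (M.v o).F 0, M.S.D b i g ∈ (M.v o).F 0 := fun g hg =>
  (d.lc b _ i g (B.frac b _ hb g hg)).mem' hb

/-- The restriction of the Jacobian determinant of two charts. -/
theorem rs_det (B : Bas f M) (d : Der M) (ha : M.In a (M.v o).O) (hb : M.In b (M.v o).O)
    (hl : M.S.lab a o = some l0) (hi : M.S.lab b o = some i0) {L L' : Loc (kE M o)}
    {κ κ' : Chart (kE M o) 2} (h : Ind M o a l0 L κ) (h' : Ind M o b i0 L' κ') :
    ∃ ε : kE M o, (ε = 1 ∨ ε = -1) ∧ rs M o (Matrix.of fun i l => M.S.D b i (M.S.z a l)).det =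
      ε * (rs M o (M.S.z a l0 / M.S.z b i0) * jac κ' κ.x) := by
  obtain ⟨nz, vz⟩ := v_z B ha hl
  obtain ⟨nu, vu⟩ := v_z B hb hi
  have z0 : ∀ l, M.S.z a l ∈ (M.v o).F 0 := fun l => ha _ (M.S.z_mem a l)
  have x0 : ∀ i l, M.S.D b i (M.S.z a l) ∈ (M.v o).F 0 := fun i l => keep B d hb i _ (z0 l)
  have x1 : ∀ i, i ≠ i0 → M.S.D b i (M.S.z a l0) ∈ (M.v o).F 1 := fun i h => by
    have := d.ord b _ i0 hb hi i 1 (M.S.z a l0) (Or.inr vz.ge)
    rwa [if_neg h, sub_zero] at this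
  have m00 : ∀ {g h}, g ∈ (M.v o).F 0 → h ∈ (M.v o).F 0 → g * h ∈ (M.v o).F 0 := fun hg hh => by
    simpa using (M.v o).F_mul hg hh
  have m10 : ∀ {g h}, g ∈ (M.v o).F 1 → h ∈ (M.v o).F 0 → g * h ∈ (M.v o).F 1 := fun hg hh => by
    simpa using (M.v o).F_mul hg hh
  obtain ⟨m, hm⟩ : ∃ m : Fin 3 → Fin 3 → KK 3, ∀ i j, m i j =
      M.S.D b i (M.S.z a (l0.succAbove 0)) * M.S.D b j (M.S.z a (l0.succAbove 1)) -
      M.S.D b j (M.S.z a (l0.succAbove 0)) * M.S.D b i (M.S.z a (l0.succAbove 1)) :=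
    ⟨_, fun _ _ => rfl⟩
  have m0 : ∀ i j, m i j ∈ (M.v o).F 0 := fun i j =>
    hm i j ▸ sub_mem (m00 (x0 _ _) (x0 _ _)) (m00 (x0 _ _) (x0 _ _))
  obtain ⟨y, hy⟩ : ∃ y, y = M.S.z a l0 / M.S.z b i0 := ⟨_, rfl⟩
  have y0 : y ∈ (M.v o).F 0 := Or.inr (by rw [hy, (M.v o).div nz nu, vz, vu]; rfl)
  have dz : M.S.D b i0 (M.S.z a l0) = y + M.S.z b i0 * M.S.D b i0 y := by
    have : M.S.z a l0 = M.S.z b i0 * y := by rw [hy, mul_div_cancel₀ _ nu]
    conv_lhs => rw [this]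
    rw [Derivation.leibniz, M.S.D_z, if_pos rfl, smul_eq_mul, smul_eq_mul, mul_one, add_comm]
  have s01 : ∀ i : Fin 3, i.succAbove 0 ≠ i.succAbove 1 := by decide
  obtain ⟨ε, hε, he⟩ := RAdj.det_exp (fun i l => M.S.D b i (M.S.z a l))
    (i0.succAbove_ne 0).symm (i0.succAbove_ne 1).symm (s01 i0)
    (l0.succAbove_ne 0).symm (l0.succAbove_ne 1).symm (s01 l0)
  rw [← hm, ← hm, ← hm, dz] at he
  have e1 : rs M o (ε * (Matrix.of fun i l => M.S.D b i (M.S.z a l)).det) =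
      rs M o (y * m (i0.succAbove 0) (i0.succAbove 1)) := by
    refine Pl.π_congr (P := (M.v o).pl) (m00 y0 (m0 _ _)) ?_
    have := add_mem (sub_mem (m10 (m10 (g := M.S.z b i0) (Or.inr vu.ge) (keep B d hb i0 y y0))
      (m0 (i0.succAbove 0) (i0.succAbove 1))) (m10 (x1 _ (i0.succAbove_ne 0))
        (m0 i0 (i0.succAbove 1)))) (m10 (x1 _ (i0.succAbove_ne 1)) (m0 i0 (i0.succAbove 0)))
    refine (congrArg (· ∈ (M.v o).F 1) ?_).mp this
    rw [he]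
    ring
  have e2 : ∀ i l, κ'.D i (κ.x l) =
      rs M o (M.S.D b (i0.succAbove i) (M.S.z a (l0.succAbove l))) := fun i l => by
    rw [h.x, map_sub, Derivation.map_algebraMap, sub_zero, h'.D i _ (z0 _)]
  have e3 : rs M o (m (i0.succAbove 0) (i0.succAbove 1)) = jac κ' κ.x := by
    rw [jac, e2, e2, e2, e2, hm, mul_comm (rs M o (M.S.D b (i0.succAbove 0)
      (M.S.z a (l0.succAbove 1)))), ← rs_mul (x0 _ _) (x0 _ _), ← rs_mul (x0 _ _) (x0 _ _)]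
    exact Pl.π_sub (P := (M.v o).pl) (m00 (x0 _ _) (x0 _ _)) (m00 (x0 _ _) (x0 _ _))
  have hJ : (Matrix.of fun i l => M.S.D b i (M.S.z a l)).det ∈ (M.v o).F 0 :=
    RJd.det_mem (M.v o).O _ x0
  rw [rs_mul y0 (m0 _ _), e3] at e1
  rw [← hy]
  rcases hε with rfl | rfl
  · exact ⟨1, Or.inl rfl, by rwa [one_mul] at e1 ⊢⟩
  · refine ⟨-1, Or.inr rfl, ?_⟩
    rw [neg_one_mul, rs_neg hJ] at e1
    rw [← e1]
    ring

theorem eqn_un (B : Bas f M) (hb : M.In b (M.v o).O) (hp : (M.v o).v p0 = 1) (c : M.J → ℤ) :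
    M.mon b c / p0 ^ c o ≠ 0 ∧ (M.v o).v (M.mon b c / p0 ^ c o) = 0 := by
  have n0 : p0 ≠ 0 := fun e => by simp [e, (M.v o).zero] at hp
  exact ⟨div_ne_zero (M.mon_ne _ _) (zpow_ne_zero _ n0), by
    rw [(M.v o).div (M.mon_ne _ _) (zpow_ne_zero _ n0), B.v_mon b o c hb, (M.v o).zpow, hp,
      mul_one, sub_self]⟩

/-- Comparison of the residues of the volume form in two charts. -/
theorem cmp (B : Bas f M) (d : Der M) (ha : M.In a (M.v o).O) (hb : M.In b (M.v o).O)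
    (hl : M.S.lab a o = some l0) (hi : M.S.lab b o = some i0) {L L' : Loc (kE M o)}
    {κ κ' : Chart (kE M o) 2} (h : Ind M o a l0 L κ) (h' : Ind M o b i0 L' κ')
    (hp : (M.v o).v p0 = 1) {U U' : (KK 3)ˣ} (hU : M.S.IsU a U) (hU' : M.S.IsU b U')
    (e : (Matrix.of fun l i => M.S.D a i (M.S.r l)).det = U * M.mon a M.kk)
    (e' : (Matrix.of fun l i => M.S.D b i (M.S.r l)).det = U' * M.mon b M.kk) :
    ∃ ε : kE M o, (ε = 1 ∨ ε = -1) ∧ rs M o U' * eqn M o p0 b (M.kk + M.e o) =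
      ε * jac κ' κ.x * (rs M o U * eqn M o p0 a (M.kk + M.e o)) := by
  obtain ⟨ε, hε, he⟩ := rs_det B d ha hb hl hi h h'
  obtain ⟨nz, vz⟩ := v_z B ha hl
  obtain ⟨nu, vu⟩ := v_z B hb hi
  have vy : (M.v o).v (M.S.z a l0 / M.S.z b i0) = 0 := by rw [(M.v o).div nz nu, vz, vu]; rfl
  have qa : M.mon a (M.kk + M.e o) / p0 ^ (M.kk + M.e o) o ∈ (M.v o).F 0 :=
    Or.inr (eqn_un B ha hp _).2.ge
  have qb : M.mon b (M.kk + M.e o) / p0 ^ (M.kk + M.e o) o ∈ (M.v o).F 0 :=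
    Or.inr (eqn_un B hb hp _).2.ge
  have hJ : (Matrix.of fun i l => M.S.D b i (M.S.z a l)).det ∈ (M.v o).F 0 :=
    RJd.det_mem (M.v o).O _ fun i l => keep B d hb i _ (ha _ (M.S.z_mem a l))
  have k : U' * (M.mon b (M.kk + M.e o) / p0 ^ (M.kk + M.e o) o) * (M.S.z a l0 / M.S.z b i0) =
      (Matrix.of fun i l => M.S.D b i (M.S.z a l)).det *
        (U * (M.mon a (M.kk + M.e o) / p0 ^ (M.kk + M.e o) o)) := by
    have k1 := det_chain d a b
    rw [e, e'] at k1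
    rw [B.mon_add, B.mon_add, mon_e B hl, mon_e B hi]
    field_simp
    linear_combination (p0 ^ (M.kk + M.e o) o)⁻¹ * k1
  have k2 := congrArg (rs M o) k
  rw [rs_mul ((M.v o).O.mul_mem _ _ (hb _ hU'.1) qb) (Or.inr vy.ge), rs_mul (hb _ hU'.1) qb,
    rs_mul hJ ((M.v o).O.mul_mem _ _ (ha _ hU.1) qa), rs_mul (ha _ hU.1) qa] at k2
  have n0 : rs M o (M.S.z a l0 / M.S.z b i0) ≠ 0 :=
    Pl.π_ne (P := (M.v o).pl) (div_ne_zero nz nu) vy
  refine ⟨ε, hε, mul_right_cancel₀ n0 ?_⟩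
  rw [eqn, eqn, k2, he]
  ring

theorem rs_ne (hb : M.In b (M.v o).O) {U : (KK 3)ˣ} (hU : M.S.IsU b U) :
    rs M o U * rs M o (U⁻¹ : (KK 3)ˣ) = 1 := by
  rw [← rs_mul (hb _ hU.1) (hb _ hU.2), Units.mul_inv]
  exact (M.v o).pl.π_one

end RAdn

open RAdn in
theorem rowADJ : OfADJ := by
  intro hE hV hS f M hM o S H hB hP p0 tr hT
  have B := hE.bas 3 f M hM
  have d := hE.der 3 f M hM
  have V := hV f M hM o
  obtain ⟨a, ha⟩ := hM.cov _ (B.ov_v o)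
  obtain ⟨W, hW⟩ := V.push _ le_rfl
  obtain ⟨L, hL, -⟩ := V.pt a _ W hW ha 1 (one_mem _) un_one
  obtain ⟨pa, rfl⟩ := hP.ex a L hL
  obtain ⟨l0, hl, κ, hκ⟩ := hS f M hM o a _ hL
  obtain ⟨U, hU, e⟩ := hM.det a
  have n1 : rs M o U * eqn M o p0 a (M.kk + M.e o) ≠ 0 :=
    mul_ne_zero (left_ne_zero_of_mul_eq_one (rs_ne ha hU)) (hT.eq _ pa a hL).1
  have n2 := hB.jne pa κ hκ.crd _ hB.ind
  refine ⟨rs M o U * eqn M o p0 a (M.kk + M.e o) / jac κ (r0 _), div_ne_zero n1 n2, fun C hC => ?_⟩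
  obtain ⟨V', -, hO, hp⟩ := hP.cor C hC
  obtain ⟨b, hb⟩ := hM.cov V' hO
  obtain ⟨p, hCp, hL', -⟩ := hp b hb 1 (one_mem _) un_one
  obtain ⟨i0, hi, κ', hκ'⟩ := hS f M hM o b _ hL'
  obtain ⟨U', hU', e'⟩ := hM.det b
  obtain ⟨ε, hε, k⟩ := cmp B d ha hL'.1 hl hi hκ hκ' hT.p0v hU hU' e e'
  have n3 := hB.jne p κ' hκ'.crd _ hB.ind
  have hq := hT.eq (M.kk + M.e o) p b hL'
  have u1 := rs_ne hL'.1 hU'
  have u2 : ∀ g ∈ M.S.A b, C.1.val (rs M o g) ≤ 1 := fun g hg =>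
    hCp _ (hL'.2.le (Algebra.subset_adjoin ⟨g, hg, rfl⟩))
  have u3 : C.1.val (rs M o U') = 1 := by
    have := congrArg C.1.val u1
    rw [map_mul, map_one] at this
    exact le_antisymm (u2 _ hU'.1) (this.ge.trans (mul_le_of_le_one_right' (u2 _ hU'.2)))
  have u4 : C.1.val ε = 1 := by rcases hε with rfl | rfl <;> simp
  have k2 : C.1.val (eqn M o p0 b (M.kk + M.e o)) = C.1.val (jac κ' (r0 _) *
      (rs M o U * eqn M o p0 a (M.kk + M.e o) / jac κ (r0 _))) := by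
    have k3 := congrArg C.1.val k
    rw [map_mul, u3, one_mul, mul_assoc, map_mul, u4, one_mul] at k3
    rw [k3, hB.chain pa κ hκ.crd κ' (r0 _), mul_assoc, mul_div_cancel₀ _ n2]
  rw [← hq.2 C hCp, hB.kC C κ' p hκ'.crd hCp, ← Int.cast_add,
    ← C.1.ord_mul (C.1.val_ne n3) (C.1.val_ne (div_ne_zero n1 n2))]
  exact congrArg _ (C.1.ord_eq (k2.trans (C.1.val_eq (C.1.val_ne
    (mul_ne_zero n3 (div_ne_zero n1 n2))))))

end Pool.Agent.MP_ee8c61_ag.N3.M3CP
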