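import Pool.Agent.MP_ee8c61_ag.N3CP.Spec

/-!
The pull-back of the hyperplane class under a morphism to projective space.
-/

set_option autoImplicit false

namespace Pool.Agent.MP_ee8c61_ag.N3.M3CP

open Pool.Agent.MP_ee8c61_ag.M3

set_option linter.unusedSectionVars false

variable [Base]

open M3S Pool.Agent.MP_96693b_ag.RS Pool.Agent.MP_cce4c9_lc.H87

namespace RHyp

variable {K : Type} [Field K] [Algebra ℂ K] {S : Model K 2} {U : Set K} {C : Crv S} {u u' f : K}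
  {p : S.P} {T Z : Dr S}

theorem ord_le (hp : On C p) (h : chA U u ≤ (S.loc p).O) (h0 : u ≠ 0) (hu' : u' ∈ U)
    (h0' : u' ≠ 0) : C.1.ord u ≤ C.1.ord u' := by
  have := (C.1.val_le_one (C.1.val_ne (div_ne_zero h0' h0))).1 (hp _ (h (div_mem_chA hu')))
  rw [div_eq_mul_inv, C.1.ord_mul (C.1.val_ne h0') (C.1.val_ne (inv_ne_zero h0)),
    C.1.ord_inv] at this
  omega

theorem II_sum (Z E : Dr S) : II S Z E = ∑ C ∈ Z.support, Z C * II S (pr C) E := by
  conv_lhs => rw [← Z.sum_single, Finsupp.sum, map_sum, LinearMap.sum_apply]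
  refine Finset.sum_congr rfl fun C _ => ?_
  rw [← smul_eq_mul, ← LinearMap.smul_apply, ← map_smul, Finsupp.smul_single_one]

theorem sum_pos {E : Dr S} (hZ : ∀ C, 0 ≤ Z C) (h : ∀ C, Z C ≠ 0 → 0 ≤ II S (pr C) E) :
    0 ≤ II S Z E ∧ ∀ C, 0 < Z C → 0 < II S (pr C) E → 0 < II S Z E := by
  have k : ∀ C ∈ Z.support, 0 ≤ Z C * II S (pr C) E := fun C hC =>
    mul_nonneg (hZ C) (h C (Finsupp.mem_support_iff.1 hC))
  rw [II_sum]
  exact ⟨Finset.sum_nonneg k, fun C h1 h2 =>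
    Finset.sum_pos' k ⟨C, Finsupp.mem_support_iff.2 h1.ne', mul_pos h1 h2⟩⟩

theorem move (H : Fnd S) (hf : f ≠ 0) (T E : Dr S) : II S (dvr S f + T) E = II S T E := by
  rw [map_add, LinearMap.add_apply, H.sym (dvr S f), II_sum E, Finset.sum_eq_zero, zero_add]
  intro C _
  rw [H.sym, H.num f C hf, mul_zero]

theorem eff (H : Fnd S) (hf : f ≠ 0) (h : f ∈ H0 T) (C : Crv S) : 0 ≤ (dvr S f + T) C := by
  rw [Finsupp.add_apply, H.dva]
  exact (mem_H0 hf).1 h C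

theorem off (H : Fnd S) (h : Z C = 0) (C' : Crv S) (h' : Z C' ≠ 0) : 0 ≤ II S (pr C') (pr C) :=
  H.off C' C fun e => h' (e ▸ h)

/-- Some coordinate is not constant on a curve through the point. -/
theorem nonconst (H : Fnd S) (hl : LocOf (chA U u) (S.loc p)) (hp : On C p) :
    ∃ x ∈ U, C.1.val (x / u - algebraMap ℂ K ((S.loc p).ev (x / u))) = 1 := by
  by_contra hn
  let A : Subalgebra ℂ K :=
    { carrier := {g | g ∈ (S.loc p).O ∧ C.1.val (g - algebraMap ℂ K ((S.loc p).ev g)) < 1}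
      mul_mem' := fun {a b} ha hb => ⟨mul_mem ha.1 hb.1, by
        rw [(S.loc p).ev_mul a ha.1 b hb.1, map_mul, show a * b - algebraMap ℂ K ((S.loc p).ev a) *
          algebraMap ℂ K ((S.loc p).ev b) = a * (b - algebraMap ℂ K ((S.loc p).ev b)) +
            algebraMap ℂ K ((S.loc p).ev b) * (a - algebraMap ℂ K ((S.loc p).ev a)) by ring]
        refine C.1.val.map_add_lt ?_ ?_ <;> rw [map_mul]
        · exact (mul_le_of_le_one_left' (hp a ha.1)).trans_lt hb.2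
        · exact (mul_le_of_le_one_left' (C.1.const_le _)).trans_lt ha.2⟩
      add_mem' := fun {a b} ha hb => ⟨add_mem ha.1 hb.1, by
        rw [(S.loc p).ev_add a ha.1 b hb.1, map_add, add_sub_add_comm]
        exact C.1.val.map_add_lt ha.2 hb.2⟩
      algebraMap_mem' := fun c => ⟨(S.loc p).O.algebraMap_mem c, by
        rw [(S.loc p).ev_alg, sub_self, map_zero]
        exact zero_lt_one⟩ }
  have hA : chA U u ≤ A := chA_le.2 fun x hx => by
    have h1 := hl.le (div_mem_chA (u := u) hx)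
    exact ⟨h1, lt_of_le_of_ne (hp _ (Loc.sub_ev_mem h1).1) fun e => hn ⟨x, hx, e⟩⟩
  obtain ⟨g, g1, g2, g3⟩ := H.ndom C p hp
  obtain ⟨a, ha, q, hq, h1, h2⟩ := hl.frac g g1
  have h3 := (hA ha).2
  rw [← h2, (S.loc p).ev_mul g g1 q (hl.le hq), g2, zero_mul, map_zero, sub_zero, map_mul, g3,
    (H.unit p q).1 h1 C hp, one_mul] at h3
  exact lt_irrefl _ h3

end RHyp

open RHyp in
theorem rowHYP : OfHYP := by
  intro K _ _ S H U hU hM
  have ex : ∀ C : Crv S, ∃ p u, On C p ∧ u ∈ U ∧ u ≠ 0 ∧ chA U u ≤ (S.loc p).O := fun C => by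
    obtain ⟨p, hp, -⟩ := C.2
    obtain ⟨u, h1, h2, h3⟩ := hM p
    exact ⟨p, u, hp, h1, h2, h3⟩
  choose pp uu h1 h2 h3 h4 using ex
  have hfin : (Function.support fun C : Crv S => (C.1.ord (uu C)⁻¹ : ℝ)).Finite :=
    (hU.biUnion fun x _ => H.fin x).subset fun C hC => Set.mem_biUnion (h2 C) fun e =>
      hC (by beta_reduce; rw [C.1.ord_inv, e, neg_zero, Int.cast_zero])
  obtain ⟨T, hT⟩ : ∃ T : Dr S, ∀ C, T C = C.1.ord (uu C)⁻¹ :=
    ⟨Finsupp.ofSupportFinite _ hfin, fun _ => rfl⟩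
  have heq : ∀ u ∈ U, u ≠ 0 → ∀ p, chA U u ≤ (S.loc p).O → Eqn T p u⁻¹ :=
    fun u hu h0 p hp => ⟨inv_ne_zero h0, fun C hC => by
      rw [hT, C.1.ord_inv, C.1.ord_inv, le_antisymm (ord_le hC hp h0 (h2 C) (h3 C))
        (ord_le (h1 C) (h4 C) (h3 C) hu h0)]⟩
  have hz : ∀ C, (C.1.ord (uu C) : ℝ) + T C = 0 := fun C => by
    rw [hT, C.1.ord_inv, Int.cast_neg, add_neg_cancel]
  have hmem : ∀ u ∈ U, u ∈ H0 T := fun u hu => by
    by_cases h0 : u = 0
    · rw [h0]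
      exact zero_mem _
    refine (mem_H0 h0).2 fun C => ?_
    rw [← hz C]
    exact add_le_add_left (Int.cast_le.2 (ord_le (h1 C) (h4 C) (h3 C) hu h0)) _
  have hnef : Nef T := fun C => by
    rw [← move H (h3 C)]
    exact (sum_pos (eff H (h3 C) (hmem _ (h2 C)))
      (off H (by rw [Finsupp.add_apply, H.dva, hz]))).1
  refine ⟨T, fun C => ⟨_, hT C⟩, heq, hmem, fun C => ⟨_, h2 C, h3 C, hz C⟩, fun p => ?_, hnef,
    fun u hu h0 p hl => ?_⟩
  · obtain ⟨u, hu, h0, hp⟩ := hM p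
    refine ⟨u, hmem u hu, h0, fun C hC => ?_⟩
    rw [Finsupp.neg_apply, ← (heq u hu h0 p hp).2 C hC, C.1.ord_inv, Int.cast_neg, neg_neg]
  have key : ∀ C, On C p → ∃ s, s ≠ 0 ∧ s ∈ H0 T ∧ (dvr S s + T) C = 0 ∧
      ∃ C', On C' p ∧ 0 < (dvr S s + T) C' := fun C hC => by
    obtain ⟨x, hx, e⟩ := nonconst H hl hC
    have m := Loc.sub_ev_mem (hl.le (div_mem_chA (u := u) hx))
    set g := x / u - algebraMap ℂ K ((S.loc p).ev (x / u)) with hg
    have g0 : g ≠ 0 := fun e' => by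
      rw [e', map_zero] at e
      exact zero_ne_one e
    have k : ∀ C', On C' p → (dvr S (u * g) + T) C' = C'.1.ord g := fun C' hC' => by
      rw [Finsupp.add_apply, H.dva, ← (heq u hu h0 p hl.le).2 C' hC', C'.1.ord_inv,
        C'.1.ord_mul (C'.1.val_ne h0) (C'.1.val_ne g0)]
      push_cast
      ring
    obtain ⟨C', c1, c2⟩ := H.thru p g m.1 m.2
    refine ⟨u * g, mul_ne_zero h0 g0, ?_, ?_, C', c1, ?_⟩
    · rw [hg, mul_sub, mul_div_cancel₀ _ h0, mul_comm, ← Algebra.smul_def]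
      exact sub_mem (hmem x hx) (Submodule.smul_mem _ _ (hmem u hu))
    · rw [k C hC, C.1.ord_of_val_one e, Int.cast_zero]
    · rw [k C' c1]
      exact Int.cast_pos.2 ((C'.1.val_lt_one (C'.1.val_ne g0)).1 c2)
  have pos : ∀ C, On C p → 0 < II S T (pr C) := fun C hC => by
    obtain ⟨s, s0, s1, s2, C', c1, c2⟩ := key C hC
    rw [← move H s0]
    exact (sum_pos (eff H s0 s1) (off H s2)).2 C' c2
      ((H.meet C' C fun e => c2.ne' (e ▸ s2)).2 ⟨p, c1, hC⟩)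
  refine ⟨?_, pos⟩
  obtain ⟨C, hC, -⟩ := H.thru p 0 (zero_mem _) Loc.ev_zero
  obtain ⟨s, s0, s1, -, C', c1, c2⟩ := key C hC
  rw [← move H s0]
  exact (sum_pos (eff H s0 s1) fun C _ => H.sym _ _ ▸ hnef C).2 C' c2 (H.sym _ _ ▸ pos C' c1)

end Pool.Agent.MP_ee8c61_ag.N3.M3CP
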