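import Pool.Agent.MP_ee8c61_ag.N3CP.SpecJ
import Pool.Agent.MP_96693b_ag.DR.FBr
import Pool.Agent.MP_96693b_ag.DR.FCh0
import Pool.Agent.MP_96693b_ag.DR.RLExch

/-!
Smooth points satisfy the Jacobian criterion.
-/

set_option autoImplicit false

namespace Pool.Agent.MP_ee8c61_ag.N3.M3CP

open Pool.Agent.MP_ee8c61_ag.M3

set_option linter.unusedSectionVars false

variable [Base]

open MvPolynomial Pool.Agent.MP_96693b_ag Pool.Agent.MP_96693b_ag.DR

namespace RJac

variable {K σ : Type} [Field K] [Algebra ℂ K] {n : ℕ} {L : RS.Loc K} {κ : RS.Chart K n}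

/-- Coordinates can be chosen among generators of the maximal ideal. -/
theorem adapt (h : RS.IsCrd L κ) (y : σ → K) (hy : ∀ i, y i ∈ L.m)
    (hm : L.m ≤ L.span (Set.range y)) :
    ∃ (κ' : RS.Chart K n) (t : Fin n → σ), RS.IsCrd L κ' ∧ ∀ k, κ'.x k = y (t k) := by
  have key : ∀ m ≤ n, ∃ (κ' : RS.Chart K n) (P : Finset (Fin n)), RS.IsCrd L κ' ∧ P.card = m ∧
      ∀ k ∈ P, ∃ i, κ'.x k = y i := by
    intro m
    induction m with
    | zero => exact fun _ => ⟨κ, ∅, h, rfl, by simp⟩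
    | succ m ih =>
      intro hmn
      obtain ⟨κ', P, h1, h2, h3⟩ := ih (Nat.le_of_succ_le hmn)
      obtain ⟨k0, -, hk⟩ := Finset.exists_mem_notMem_of_card_lt_card
        (s := P) (t := Finset.univ) (by rw [h2, Finset.card_fin]; exact hmn)
      obtain ⟨i, hi⟩ : ∃ i, y i ∉ κ'.I L P ⊔ L.m ^ 2 := by
        by_contra hc
        refine h1.x_notMem_sup hk (RS.Loc.span_le.2 ?_ (hm (h1.x_mem_m k0)))
        rintro _ ⟨i, rfl⟩
        exact not_not.1 fun h4 => hc ⟨i, h4⟩
      obtain ⟨j, hj, h4⟩ := RS.lex_exists_D h1 (hy i) hi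
      obtain ⟨κ'', h5, h6, h7⟩ := RS.lex_update h1 (hy i) h4
      refine ⟨κ'', insert j P, h5, by rw [Finset.card_insert_of_notMem hj, h2], fun k hk => ?_⟩
      rcases Finset.mem_insert.1 hk with e | e
      · exact ⟨i, e ▸ h6⟩
      · rw [h7 k fun e' => hj (e' ▸ e)]; exact h3 k e
  obtain ⟨κ', P, h1, h2, h3⟩ := key n le_rfl
  have hP : P = Finset.univ := Finset.eq_univ_of_card P (by rw [h2, Fintype.card_fin])
  choose t ht using fun k => h3 k (hP ▸ Finset.mem_univ k)
  exact ⟨κ', t, h1, ht⟩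

theorem m_le {w : σ → K} (hw : ∀ i, w i ∈ L.O)
    (hf : ∀ x ∈ L.O, ∃ p q : MvPolynomial σ ℂ, aeval (fun i => L.ev (w i)) q ≠ 0 ∧
      x * aeval w q = aeval w p) :
    L.m ≤ L.span (Set.range fun i => w i - algebraMap ℂ K (L.ev (w i))) := fun x hx => by
  have key : ∀ r : MvPolynomial σ ℂ,
      aeval w r - algebraMap ℂ K (aeval (fun i => L.ev (w i)) r) ∈
        L.span (Set.range fun i => w i - algebraMap ℂ K (L.ev (w i))) := fun r => by
    induction r using MvPolynomial.induction_on with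
    | C c => simp
    | add p q hp hq => rw [map_add, map_add, map_add, add_sub_add_comm]; exact add_mem hp hq
    | mul_X p i hp =>
      have e : aeval w (p * X i) - algebraMap ℂ K (aeval (fun i => L.ev (w i)) (p * X i)) =
          aeval w p * (w i - algebraMap ℂ K (L.ev (w i))) + algebraMap ℂ K (L.ev (w i)) *
            (aeval w p - algebraMap ℂ K (aeval (fun i => L.ev (w i)) p)) := by
        simp only [map_mul, aeval_X]
        ring
      rw [e]
      exact add_mem (RS.Loc.mul_mem_left (FBrx.ev_aeval hw p).1 (RS.Loc.subset_span ⟨i, rfl⟩))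
        (RS.Loc.mul_mem_left (L.O.algebraMap_mem _) hp)
  obtain ⟨p, q, h1, h2⟩ := hf x hx.1
  have e := key p
  have e1 := FBrx.ev_aeval hw q
  rw [← (FBrx.ev_aeval hw p).2, ← h2, L.ev_mul _ hx.1 _ e1.1, hx.2, zero_mul, map_zero, sub_zero,
    mul_comm] at e
  exact RS.Loc.mem_of_unit_mul e1.1 (e1.2 ▸ h1) e

/-- The affine statement. -/
theorem aff [Fintype σ] (h : RS.IsCrd L κ) {w : σ → K} (hw : ∀ i, w i ∈ L.O)
    (hf : ∀ x ∈ L.O, ∃ p q : MvPolynomial σ ℂ, aeval (fun i => L.ev (w i)) q ≠ 0 ∧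
      x * aeval w q = aeval w p) :
    AJ {x | ∀ r : MvPolynomial σ ℂ, aeval w r = 0 → aeval x r = 0} n fun i => L.ev (w i) := by
  classical
  obtain ⟨κ, t, h, ht⟩ := adapt h _ (fun i => RS.Loc.sub_ev_mem (hw i)) (m_le hw hf)
  have tinj : Function.Injective t := fun k k' e => h.x_injective (by rw [ht, ht, e])
  have hc : ∀ i, ∃ c : Fin n → L.O, ∑ k, c k • κ.x k = w i - algebraMap ℂ K (L.ev (w i)) :=
    fun i => (Submodule.mem_span_range_iff_exists_fun _).1 (h.span.ge (RS.Loc.sub_ev_mem (hw i)))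
  choose c hc using hc
  set z : σ → ℂ := fun i => L.ev (w i) with hz
  obtain ⟨s, P, hs, hP⟩ := FCh0x.denom (ι := σ × Fin n) (c := fun j => (c j.1 j.2 : K))
    fun j => hf _ (c j.1 j.2).2
  let Q : σ → Fin n → MvPolynomial σ ℂ := fun i k =>
    if i ∈ Set.range t then (if t k = i then s else 0) else P (i, k)
  have hQ : ∀ {A : Type} [CommRing A] [Algebra ℂ A] (u : σ → A) (v : Fin n → A) (k0 : Fin n),
      ∑ k, aeval u (Q (t k0) k) * v k = aeval u s * v k0 := by
    intro A _ _ u v k0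
    rw [Finset.sum_eq_single k0 (fun k _ hk => by simp [Q, tinj.ne hk]) (by simp)]
    simp [Q]
  let G : σ → MvPolynomial (σ ⊕ Fin n) ℂ := fun i => rename Sum.inl (s * (X i - C (z i))) -
    ∑ k, rename Sum.inl (Q i k) * X (Sum.inr k)
  have hG : ∀ {A : Type} [CommRing A] [Algebra ℂ A] (u : σ → A) (v : Fin n → A) i,
      aeval (Sum.elim u v) (G i) = aeval u s * (u i - algebraMap ℂ A (z i)) -
        ∑ k, aeval u (Q i k) * v k := by
    intro A _ _ u v i
    simp [G, aeval_rename]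
  have h0 : ∀ i, aeval (Sum.elim w κ.x) (G i) = 0 := fun i => by
    rw [hG, sub_eq_zero]
    by_cases hi : i ∈ Set.range t
    · obtain ⟨k0, rfl⟩ := hi
      rw [hQ, ht]
    · rw [← hc i, Finset.mul_sum]
      refine Finset.sum_congr rfl fun k _ => ?_
      rw [show Q i k = P (i, k) from if_neg hi, ← hP, mul_comm (c i k : K), mul_assoc]
      rfl
  let g : σ → MvPolynomial σ ℂ := fun i =>
    s * (X i - C (z i)) - ∑ k, Q i k * (X (t k) - C (z (t k)))
  have hg : ∀ {A : Type} [CommRing A] [Algebra ℂ A] (u : σ → A) i, aeval u (g i) =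
      aeval (Sum.elim u fun k => u (t k) - algebraMap ℂ A (z (t k))) (G i) := by
    intro A _ _ u i
    rw [hG]
    simp [g]
  obtain ⟨S, hS⟩ := IsNoetherian.noetherian (RingHom.ker (aeval w : MvPolynomial σ ℂ →ₐ[ℂ] K))
  have h1 : ∀ r : S, ∃ τ : MvPolynomial σ ℂ, aeval z τ = 1 ∧ ∀ x : σ → ℂ, aeval x τ ≠ 0 →
      (∀ i, aeval x (g i) = 0) → aeval x r.1 = 0 := fun r => by
    have hr : aeval w r.1 = 0 := hS.le (Submodule.subset_span r.2)
    obtain ⟨τ, t1, t2⟩ := krull h hw s Q hs G (fun _ => rfl) h0 (r := rename Sum.inl r.1)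
      (by rw [aeval_rename]; exact hr)
    have e : ∀ x : σ → ℂ, aeval x (aeval (Sum.elim X fun k => X (t k) - C (z (t k))) τ :
        MvPolynomial σ ℂ) = aeval (Sum.elim x fun k => x (t k) - algebraMap ℂ ℂ (z (t k))) τ :=
      fun x => by
        rw [comp_aeval_apply]
        refine congrArg (aeval · τ) (funext fun o => ?_)
        cases o <;> simp
    refine ⟨aeval (Sum.elim X fun k => X (t k) - C (z (t k))) τ, ?_, fun x h2 h3 => ?_⟩
    · rw [e, ← t1]
      refine congrArg (aeval · τ) (funext fun o => ?_)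
      cases o <;> simp [hz]
    · have h4 := (Ideal.span_le (I := RingHom.ker (aeval
        (Sum.elim x fun k => x (t k) - algebraMap ℂ ℂ (z (t k))) :
          MvPolynomial (σ ⊕ Fin n) ℂ →ₐ[ℂ] ℂ))).2
        (Set.range_subset_iff.2 fun i => (hg x i).symm.trans (h3 i)) t2
      rw [RingHom.mem_ker, map_mul, ← e, aeval_rename] at h4
      exact (mul_eq_zero.1 h4).resolve_left h2
  choose τ t1 t2 using h1
  refine ⟨fun r hr => ?_, {i // i ∉ Set.range t}, inferInstance, fun j => g j.1, ∏ r, τ r, ?_, ?_,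
    ?_, fun x hx => ⟨fun h2 j => h2 _ ?_, fun h2 r hr => ?_⟩⟩
  · rw [← (FBrx.ev_aeval hw r).2, hr, RS.Loc.ev_zero]
  · have e : Fintype.card {i // i ∈ Set.range t} = n :=
      (Set.card_range_of_injective tinj).trans (Fintype.card_fin n)
    have e' := Fintype.card_subtype_le fun i => i ∈ Set.range t
    rw [Fintype.card_subtype_compl, e]
    omega
  · simp [t1]
  · rw [Fintype.linearIndependent_iff]
    intro a ha j
    have e : ∀ i : {i // i ∉ Set.range t}, aeval z (pderiv j.1 (g i.1)) =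
        if i = j then aeval z s else 0 := fun i => by
      have e1 : ∀ k, t k ≠ j.1 := fun k e => j.2 ⟨k, e⟩
      by_cases hij : i = j
      · simp [g, hij, pderiv_X, e1]
      · have e2 : i.1 ≠ j.1 := fun e => hij (Subtype.ext e)
        simp [g, hij, pderiv_X, e1, e2]
    have h2 := congrFun ha j.1
    simp only [Finset.sum_apply, Pi.smul_apply, e, smul_eq_mul, mul_ite, mul_zero,
      Finset.sum_ite_eq', Finset.mem_univ, if_true, Pi.zero_apply] at h2
    exact (mul_eq_zero.1 h2).resolve_right hs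
  · rw [hg, ← h0 j.1]
    exact congrArg (fun v => aeval (Sum.elim w v) (G j.1)) (funext fun k => (ht k).symm)
  · have h3 : ∀ i, aeval x (g i) = 0 := fun i => by
      by_cases hi : i ∈ Set.range t
      · obtain ⟨k0, rfl⟩ := hi
        rw [hg, hG, hQ, sub_self]
      · exact h2 ⟨i, hi⟩
    rw [map_prod, Finset.prod_ne_zero_iff] at hx
    exact (Ideal.span_le (I := RingHom.ker (aeval x : MvPolynomial σ ℂ →ₐ[ℂ] ℂ))).2
      (fun r hr => t2 ⟨r, hr⟩ x (hx _ (Finset.mem_univ _)) h3) (hS.ge hr)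

end RJac

theorem rowJAC : StJAC := by
  intro K σ _ _ _ f z n hz hs
  obtain ⟨L, hL⟩ := exists_at hz
  obtain ⟨κ, hκ⟩ := hL.smo_iff.1 hs
  obtain ⟨a, ha⟩ := Function.ne_iff.1 hz.1
  have ha : z a ≠ 0 := ha
  have e1 : (fun i => L.ev (f i / f a)) = fun i => z i / z a := funext fun i => (hL.div ha i).2.2
  have h := RJac.aff hκ (w := fun i => f i / f a) (fun i => (hL.div ha i).2.1) fun x hx => by
    obtain ⟨p, q, hq⟩ : x ∈ locO f z := hL.2 ▸ hx
    obtain ⟨h1, h2⟩ := FBrx.chart_of_quo hq (f a) ha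
    exact ⟨p, q, e1 ▸ h1, h2⟩
  have e2 : (z a)⁻¹ • z = fun i => z i / z a := funext fun i => (div_eq_inv_mul _ _).symm
  have f0 := (hL.div ha a).1
  have e3 : {x : σ → ℂ | x a = 1 ∧ x ∈ cone f} =
      {x | ∀ r : MvPolynomial σ ℂ, aeval (fun i => f i / f a) r = 0 → aeval x r = 0} := by
    refine Set.ext fun x => ⟨fun ⟨h1, h2⟩ r hr => ?_, fun h1 => ?_⟩
    · obtain ⟨R, k, h3, h4⟩ := FBrx.exists_hom r a
      have h5 := h2.2 R k h3 (by rw [h4 K f f0, hr, mul_zero])
      rw [h4 ℂ x (h1 ▸ one_ne_zero), h1] at h5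
      simpa using h5
    · have h2 : x a = 1 := by
        have h3 := h1 (X a - 1) (by simp [f0])
        simpa [sub_eq_zero] using h3
      refine ⟨h2, fun e => ?_, fun p k hp h3 => h1 p ?_⟩
      · rw [e] at h2
        exact zero_ne_one h2
      · rw [FBrx.dehom hp, h3, mul_zero]
  refine ⟨a, ha, ?_⟩
  rw [e2, e3, ← e1]
  exact h

end Pool.Agent.MP_ee8c61_ag.N3.M3CP
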