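import Pool.Agent.MP_ee8c61_ag.N3CP.RCu

/-!
Restriction of divisors to the surface.
-/

set_option autoImplicit false

namespace Pool.Agent.MP_ee8c61_ag.N3.M3CP

open Pool.Agent.MP_ee8c61_ag.M3

set_option linter.unusedSectionVars false

variable [Base]

open M3 hiding Dom
open M3E (Bas)
open M3S hiding Ov
open M3RESID (Pl)
open Pool.Agent.MP_96693b_ag.RS (Model)
open RCu

namespace RTr2

variable {f : Po 3} {M : Mod 3} {o : M.J} {p0 : KK 3} {b : M.ι}

theorem p_ne (hp : (M.v o).v p0 = 1) : p0 ≠ 0 := fun e => by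
  rw [e, (M.v o).zero] at hp
  exact zero_ne_one hp

theorem q_un (B : Bas f M) (hp : (M.v o).v p0 = 1) (hb : M.In b (M.v o).O) (c : M.J → ℤ) :
    M.mon b c / p0 ^ c o ≠ 0 ∧ (M.v o).v (M.mon b c / p0 ^ c o) = 0 :=
  ⟨div_ne_zero (M.mon_ne b c) (zpow_ne_zero _ (p_ne hp)), by
    rw [(M.v o).div (M.mon_ne b c) (zpow_ne_zero _ (p_ne hp)), (M.v o).zpow, hp, B.v_mon b o c hb,
      mul_one, sub_self]⟩

theorem eqn_ne (B : Bas f M) (hp : (M.v o).v p0 = 1) (hb : M.In b (M.v o).O) (c : M.J → ℤ) :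
    eqn M o p0 b c ≠ 0 := Pl.π_ne (P := (M.v o).pl) (q_un B hp hb c).1 (q_un B hp hb c).2

theorem eqn_add (B : Bas f M) (hp : (M.v o).v p0 = 1) (hb : M.In b (M.v o).O) (c c' : M.J → ℤ) :
    eqn M o p0 b (c + c') = eqn M o p0 b c * eqn M o p0 b c' := by
  rw [eqn, eqn, eqn, ← rs_mul (Or.inr (q_un B hp hb c).2.ge) (Or.inr (q_un B hp hb c').2.ge),
    B.mon_add, Pi.add_apply, zpow_add₀ (p_ne hp), div_mul_div_comm]

theorem bar_mem (hp : (M.v o).v p0 = 1) {c : M.J → ℤ} {s : KK 3} (hs : s ∈ (M.v o).F (-c o)) :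
    s * p0 ^ c o ∈ (M.v o).F 0 := by
  have := (M.v o).F_mul hs ((M.v o).mem_F_self (p0 ^ c o))
  rwa [(M.v o).zpow, hp, mul_one, neg_add_cancel] at this

theorem bar_eqn (B : Bas f M) (hp : (M.v o).v p0 = 1) (hb : M.In b (M.v o).O) {c : M.J → ℤ}
    {s : KK 3} (hs : s ∈ (M.v o).F (-c o)) : s * M.mon b c ∈ (M.v o).F 0 ∧
      rs M o (s * M.mon b c) = bar M o p0 c s * eqn M o p0 b c := by
  have e : s * M.mon b c = s * p0 ^ c o * (M.mon b c / p0 ^ c o) := by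
    rw [mul_assoc, mul_div_cancel₀ _ (zpow_ne_zero _ (p_ne hp))]
  have h := (M.v o).F_mul (bar_mem hp hs) (Or.inr (q_un B hp hb c).2.ge : _ ∈ (M.v o).F 0)
  rw [e]
  exact ⟨by simpa using h, rs_mul (bar_mem hp hs) (Or.inr (q_un B hp hb c).2.ge)⟩

variable {S : Model (kE M o) 2} {C : Crv S} {V : Vl 3}

theorem ord_eq (B : Bas f M) (hp : (M.v o).v p0 = 1) (h : Cor M o V C.1.val.valuationSubring)
    {a : M.ι} (ha : M.In a V) (hb : M.In b V) (c : M.J → ℤ) :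
    C.1.ord (eqn M o p0 a c) = C.1.ord (eqn M o p0 b c) := by
  have u := B.un_mon a b V c ha hb
  have hb' : M.In b (M.v o).O := fun g hg => cor_le h (hb g hg)
  have m : M.mon a c / M.mon b c ∈ (M.v o).F 0 := cor_le h u.2.1
  have e := (un_val _ _).1 ((cor_un h m).1 u)
  rw [eqn, ← div_mul_div_cancel₀ (M.mon_ne b c), rs_mul m (Or.inr (q_un B hp hb' c).2.ge), ← eqn,
    C.1.ord_mul (e.trans_ne one_ne_zero) (C.1.val_ne (eqn_ne B hp hb' c)), C.1.ord_of_val_one e,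
    zero_add]

theorem oc_iff (B : Bas f M) (hp : (M.v o).v p0 = 1) {W : ValuationSubring (kE M o)}
    (h : Cor M o V W) (hb : M.In b V) {c : M.J → ℤ} {s : KK 3} (hs : s ∈ (M.v o).F (-c o)) :
    M.Oc V c s ↔ bar M o p0 c s * eqn M o p0 b c ∈ W := by
  have e := bar_eqn B hp (fun g hg => cor_le h (hb g hg)) hs
  rw [B.oc_iff b V c s hb, h, e.2, and_iff_right e.1]

end RTr2

open RTr2 in
theorem rowTR2 : OfTR := by
  intro hE hV f M hM o S H hS P p0 hp
  have B : Bas f M := hE.bas 3 f M hM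
  have vl := hV f M hM o
  choose V hV1 hV2 hV3 using P.cor
  choose b hb using fun C h => hM.cov _ (hV2 C h)
  have hb' : ∀ C h, M.In (b C h) (M.v o).O := fun C h g hg => cor_le (hV1 C h) (hb C h g hg)
  classical
  let t : (M.J → ℤ) → Crv S → ℝ := fun c C =>
    if h : H C = 0 then C.1.ord (eqn M o p0 (b C h) c) else 0
  have fin : ∀ c, (Function.support (t c)).Finite := fun c =>
    (Set.finite_iUnion fun a => hS.fin (eqn M o p0 a c)).subset fun C hC => by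
      by_cases h : H C = 0
      · exact Set.mem_iUnion.2 ⟨b C h, fun e => hC (by simp [t, h, e])⟩
      · exact absurd (dif_neg h) hC
  let tr : (M.J → ℤ) →+ Dr S := AddMonoidHom.mk' (fun c => Finsupp.ofSupportFinite _ (fin c))
    fun c c' => Finsupp.ext fun C => by
      change t (c + c') C = t c C + t c' C
      by_cases h : H C = 0
      · simp only [t, dif_pos h]
        rw [eqn_add B hp (hb' C h), C.1.ord_mul (C.1.val_ne (eqn_ne B hp (hb' C h) c))
          (C.1.val_ne (eqn_ne B hp (hb' C h) c')), Int.cast_add]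
      · simp only [t, dif_neg h, add_zero]
  have e1 : ∀ c C h, tr c C = C.1.ord (eqn M o p0 (b C h) c) := fun c C h => dif_pos h
  have e2 : ∀ c C, H C ≠ 0 → tr c C = 0 := fun c C h => dif_neg h
  have e3 : ∀ c p a, EPt M o a (S.loc p) → Eqn (tr c) p (eqn M o p0 a c) := fun c p a h =>
    ⟨eqn_ne B hp h.1 c, fun C hC => by
      have h0 := (P.Hp p).1 ((P.pt p).2 ⟨a, h⟩) C hC
      rw [e1 c C h0, ord_eq B hp (hV1 C h0) (in_of (hV1 C h0) hC h) (hb C h0)]⟩
  refine ⟨tr, hp, fun c C => ?_, e3, e2, fun c s hs => ⟨fun h h0 C hC => ?_, fun h => ?_⟩⟩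
  · by_cases h : H C = 0
    · exact ⟨_, e1 c C h⟩
    · exact ⟨0, by rw [e2 c C h, Int.cast_zero]⟩
  · have h1 := eqn_ne B hp (hb' C hC) c
    have h2 := (C.1.val_le_one (C.1.val_ne (mul_ne_zero h0 h1))).1
      ((oc_iff B hp (hV1 C hC) (hb C hC) hs).1 (h _ (hV2 C hC) (cor_le (hV1 C hC))))
    rw [C.1.ord_mul (C.1.val_ne h0) (C.1.val_ne h1)] at h2
    rw [e1 c C hC]
    exact_mod_cast h2
  · intro V' h1 h2
    obtain ⟨a, ha⟩ := hM.cov V' h1
    obtain ⟨W, hW⟩ := vl.push V' h2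
    obtain ⟨L, h3, h4, -⟩ := vl.pt a V' W hW ha 1 (one_mem _) un_one
    obtain ⟨p, rfl⟩ := P.ex a L h3
    rw [oc_iff B hp hW ha hs]
    refine h4 _ (hS.hart p _ fun C hC => ?_)
    by_cases h0 : bar M o p0 c s = 0
    · simp [h0]
    have h5 := e3 c p a h3
    have h6 := h h0 C ((P.Hp p).1 ((P.pt p).2 ⟨a, h3⟩) C hC)
    rw [← h5.2 C hC] at h6
    rw [C.1.val_le_one (C.1.val_ne (mul_ne_zero h0 h5.1)),
      C.1.ord_mul (C.1.val_ne h0) (C.1.val_ne h5.1)]
    exact_mod_cast h6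

end Pool.Agent.MP_ee8c61_ag.N3.M3CP
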