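import Pool.Agent.MP_ee8c61_ag.N3CP.Spec
import Pool.Agent.MP_96693b_ag.DR.SpecS

/-!
Smooth points satisfy the Jacobian criterion: the statement.
-/

set_option autoImplicit false

namespace Pool.Agent.MP_ee8c61_ag.N3.M3CP

open Pool.Agent.MP_ee8c61_ag.M3

set_option linter.unusedSectionVars false

variable [Base]

open Pool.Agent.MP_96693b_ag.DR

/-- Smooth points satisfy the Jacobian criterion. -/
def StJAC : Prop := ∀ (K σ : Type) [Field K] [Algebra ℂ K] [Fintype σ] (f : σ → K) (z : σ → ℂ)
  (n : ℕ), z ∈ cone f → Smo n f z → JSm (cone f) n z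

def OfRES : Prop := StJAC → StRES

end Pool.Agent.MP_ee8c61_ag.N3.M3CP
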